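import Mathlib
import Pool.Agent.H705R2.ABC.Defs
import Pool.Agent.H925R.Szpiro.TwistCount

/-!
# Szpiro, full 2-torsion, from any exponent of the abc count: statements of the modules
-/

namespace Pool.Agent.W221.Sz

open Finset

/-- `F` is an exponent of the abc count with the properties needed for the twists:
`(1 - F) / (2 - l)` is nonincreasing on `(0, 2)`, `F l / (l - 1)` is nonincreasing on `(1, ∞)` -/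
structure FOK (F : ℝ → ℝ) : Prop where
  cnt : ∀ lam : ℝ, 0 < lam → Pool.Agent.H705R2.ABC.StmtCount lam (F lam)
  nonneg : ∀ l : ℝ, 0 < l → 0 ≤ F l
  mono : ∀ l m : ℝ, 0 < l → l ≤ m → F l ≤ F m
  lip : ∀ l m : ℝ, 0 < l → l ≤ m → F m ≤ F l + (m - l)
  ge : ∀ l : ℝ, 0 < l → l - 1 ≤ F l
  two : ∀ l : ℝ, 2 ≤ l → F l = l - 1
  h : ∀ l m : ℝ, 0 < l → l ≤ m → m < 2 → (1 - F m) * (2 - l) ≤ (1 - F l) * (2 - m)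
  g : ∀ l m : ℝ, 1 < l → l ≤ m → F m * (l - 1) ≤ F l * (m - 1)

/-- pairs attached to the factor `m` of the twist -/
def StmtPairs (F : ℝ → ℝ) : Prop :=
  ∀ B lam ε : ℝ, 1 ≤ B → 0 < lam → lam ≤ 3 → 0 < ε →
    ∃ C : ℝ, 0 < C ∧ ∀ X : ℕ, 1 ≤ X → ∀ m : ℕ, 1 ≤ m → ∀ S : Finset (ℕ × ℕ),
      (∀ t ∈ S, 0 < t.1 ∧ 0 < t.2 ∧ Nat.Coprime t.1 t.2 ∧ m * (t.1 + t.2) ≤ 2 * X ∧
        (lam ≤ 1 → (Pool.Agent.H785R2.ABC.rad (t.1 * t.2 * (t.1 + t.2)) : ℝ) *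
          (m : ℝ) ^ (2 - lam) ≤ B * ((t.1 + t.2 : ℕ) : ℝ) ^ lam) ∧
        (1 ≤ lam → (Pool.Agent.H785R2.ABC.rad (t.1 * t.2 * (t.1 + t.2)) : ℝ) * m ≤
          B * ((t.1 + t.2 : ℕ) : ℝ) * (X : ℝ) ^ (lam - 1))) →
      (S.card : ℝ) ≤ C * (X : ℝ) ^ (F lam + ε) / m

/-- the exceptional models for the exponent `κ` -/
def ExcSK (κ K : ℝ) (X : ℕ) : Set (ℤ × ℤ) :=
  {q | Pool.Agent.H925R.Szpiro.IsMin q.1 q.2 ∧ Pool.Agent.H925R.Szpiro.FullS q.1 q.2 ∧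
    |q.1| ≤ (X : ℤ) ^ 2 ∧ |q.2| ≤ (X : ℤ) ^ 3 ∧
    (Pool.Agent.H925R.Szpiro.condS q.1 q.2 : ℝ) ^ κ <
      K * |((Pool.Agent.H925R.Szpiro.D q.1 q.2 : ℤ) : ℝ)|}

/-- the count of the exceptional models -/
def StmtTwist (F : ℝ → ℝ) : Prop :=
  ∀ κ K ε : ℝ, 2 ≤ κ → 0 < K → 0 < ε → ∃ C : ℝ, 0 < C ∧ ∀ X : ℕ, 1 ≤ X →
    (ExcSK κ K X).Finite ∧ ((ExcSK κ K X).ncard : ℝ) ≤ C * (X : ℝ) ^ (F (6 / κ) + ε)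

end Pool.Agent.W221.Sz
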