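import Mathlib
import Pool.Agent.W221.Sz.Stm
import Pool.Agent.H39R3.ModMain

/-!
The modified Szpiro inequality: the count of elliptic curves with full 2-torsion from the pairs,
any exponent `κ ≥ 2` (adapted from Pool.Agent.W261.Sz.Twist and Pool.Agent.H39R3.ModMain).
-/

set_option autoImplicit false

namespace Pool.Agent.W221.Sz

open Finset Pool.Agent.H328R2.ABC Pool.Agent.H925R.Szpiro Pool.Agent.H39R3

/-- the count of the exceptional models for the modified inequality -/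
def StmtTwistM (F : ℝ → ℝ) : Prop :=
  ∀ κ K ε : ℝ, 2 ≤ κ → 0 < K → 0 < ε → ∃ C : ℝ, 0 < C ∧ ∀ X : ℕ, 1 ≤ X →
    (ExcM κ K X).Finite ∧ ((ExcM κ K X).ncard : ℝ) ≤ C * (X : ℝ) ^ (F (6 / κ) + ε)

theorem twistM_of (F : ℝ → ℝ) (hF : FOK F) (hP : StmtPairs F) : StmtTwistM F := by
  classical
  intro κ K ε hκ hK hε
  have hκ0 : 0 < κ := by linarith
  set B : ℝ := max 1 (139968 * K ^ (1 / κ)) with hB
  have hB1 : 1 ≤ B := le_max_left _ _
  set lam : ℝ := 6 / κ with hlam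
  have hl0 : 0 < lam := by positivity
  have hl3 : lam ≤ 3 := by
    rw [hlam, div_le_iff₀ hκ0]
    linarith
  have hFl : 0 ≤ F lam := hF.nonneg lam hl0
  have hKk : 0 ≤ K ^ (1 / κ) := Real.rpow_nonneg hK.le _
  have hBge : 139968 * K ^ (1 / κ) ≤ B := le_max_right _ _
  obtain ⟨C1, hC1, h1⟩ := hP B lam (ε / 3) hB1 hl0 hl3 (by positivity)
  obtain ⟨C2, hC2, h2⟩ := sum_inv_rad (ε / 3) (by positivity)
  obtain ⟨C3, hC3, h3⟩ := Pool.Agent.H510R2.divisor_bound (ε / 9) (by positivity)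
  refine ⟨12 * (C1 * (C2 * 2 ^ (ε / 3)) * (C3 * 2 ^ (ε / 3))), by positivity, fun X hX => ?_⟩
  have hX1 : (1 : ℝ) ≤ X := by exact_mod_cast hX
  have hX0 : (0 : ℝ) < X := by linarith
  -- the set of (g₂, (u, v))
  let cond : ℕ × (ℕ × ℕ) → Prop := fun t => 0 < t.2.1 ∧ 0 < t.2.2 ∧ Nat.Coprime t.2.1 t.2.2 ∧
    t.1 * (t.2.1 + t.2.2) ≤ 2 * X ∧
    (lam ≤ 1 → (rad (t.2.1 * t.2.2 * (t.2.1 + t.2.2)) : ℝ) * (t.1 : ℝ) ^ (2 - lam) ≤
      B * ((t.2.1 + t.2.2 : ℕ) : ℝ) ^ lam) ∧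
    (1 ≤ lam → (rad (t.2.1 * t.2.2 * (t.2.1 + t.2.2)) : ℝ) * t.1 ≤
      B * ((t.2.1 + t.2.2 : ℕ) : ℝ) * (X : ℝ) ^ (lam - 1))
  set Fs : Finset (ℕ × (ℕ × ℕ)) :=
    (Icc 1 (2 * X) ×ˢ (range (2 * X + 1) ×ˢ range (2 * X + 1))).filter cond with hFs
  set G : Finset (ℕ × (ℕ × (ℕ × ℕ))) := Fs.biUnion (fun t =>
    (Nat.divisors (t.2.1 * t.2.2 * (t.2.1 + t.2.2))).image (fun d => (d, t))) with hG
  set A : Finset (ℤ × ℕ × ℕ) := ({1, -1} : Finset ℤ) ×ˢ (range 2 ×ˢ range 3) with hA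
  have hAcard : A.card ≤ 12 := by
    rw [hA, card_product, card_product, card_range, card_range]
    have h2 : ({1, -1} : Finset ℤ).card ≤ 2 := card_le_two
    omega
  have hsub : ExcM κ K X ⊆ (((A ×ˢ G).image mdl : Finset (ℤ × ℤ)) : Set (ℤ × ℤ)) := by
    rintro ⟨a, b⟩ ⟨hmin, hf, ha, hb, hbig⟩
    simp only at hmin hf ha hb hbig
    obtain ⟨i, j, g₁, g₂, u, v, hi, hj, hg1, hg2, hu, hv, hcop, hdvd, h3a, hD, hcond⟩ :=
      twist_pair a b hmin hf
    set n : ℕ := u * v * (u + v) with hn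
    set g : ℕ := 2 ^ i * 3 ^ j * (g₁ * g₂) with hg
    have hn0 : 0 < n := by rw [hn]; positivity
    have h2i : 1 ≤ 2 ^ i := Nat.one_le_two_pow
    have h3j : 1 ≤ 3 ^ j := Nat.one_le_pow _ _ (by norm_num)
    have h2i' : 2 ^ i ≤ 2 := by
      calc 2 ^ i ≤ 2 ^ 1 := Nat.pow_le_pow_right (by norm_num) hi
        _ = 2 := by norm_num
    have h3j' : 3 ^ j ≤ 9 := by
      calc 3 ^ j ≤ 3 ^ 2 := Nat.pow_le_pow_right (by norm_num) hj
        _ = 9 := by norm_num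
    have hgle : g ≤ 18 * (g₁ * g₂) := by
      rw [hg]
      calc 2 ^ i * 3 ^ j * (g₁ * g₂) ≤ 2 * 9 * (g₁ * g₂) := by gcongr
        _ = _ := by ring
    have hgge : g₂ ≤ g := by
      rw [hg]
      calc g₂ = 1 * 1 * (1 * g₂) := by ring
        _ ≤ 2 ^ i * 3 ^ j * (g₁ * g₂) := by gcongr; omega
    have hG0le : g₁ * g₂ ≤ g := by
      rw [hg]
      calc g₁ * g₂ = 1 * 1 * (g₁ * g₂) := by ring
        _ ≤ 2 ^ i * 3 ^ j * (g₁ * g₂) := by gcongr
    rw [mem_coe, mem_image]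
    obtain ⟨s, hs, hsb⟩ : ∃ s : ℤ, s ∈ ({1, -1} : Finset ℤ) ∧ b = s * |b| := by
      rcases le_total 0 b with h0 | h0
      · exact ⟨1, by simp, by rw [abs_of_nonneg h0]; ring⟩
      · exact ⟨-1, by simp, by rw [abs_of_nonpos h0]; ring⟩
    refine ⟨((s, i, j), (g₁, (g₂, (u, v)))), ?_, ?_⟩
    · rw [mem_product]
      refine ⟨?_, ?_⟩
      · rw [hA, mem_product, mem_product]
        exact ⟨hs, mem_range.mpr (by simp only; omega), mem_range.mpr (by simp only; omega)⟩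
      rw [hG, mem_biUnion]
      refine ⟨(g₂, (u, v)), ?_, ?_⟩
      swap
      · rw [mem_image]
        exact ⟨g₁, Nat.mem_divisors.mpr ⟨hdvd, hn0.ne'⟩, rfl⟩
      -- size
      have hsum : g * (u + v) ≤ 2 * X := by
        by_contra hcon
        push Not at hcon
        have h1 : (2 * (X : ℤ)) < g * (u + v) := by exact_mod_cast hcon
        have h2 : (2 * (X : ℤ)) ^ 2 < ((g : ℤ) * (u + v)) ^ 2 :=
          pow_lt_pow_left₀ h1 (by positivity) (by norm_num)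
        have h4 : a ≤ (X : ℤ) ^ 2 := (le_abs_self a).trans ha
        have h5 : (0 : ℤ) ≤ (g : ℤ) ^ 2 * ((u : ℤ) - v) ^ 2 := by positivity
        nlinarith [h3a, h5, h2, h4]
      have hsum2 : g₂ * (u + v) ≤ 2 * X := (Nat.mul_le_mul_right _ hgge).trans hsum
      have hw1 : 1 ≤ u + v := by omega
      have hg2X : g₂ ≤ 2 * X := by
        calc g₂ = g₂ * 1 := (mul_one _).symm
          _ ≤ g₂ * (u + v) := Nat.mul_le_mul_left _ hw1
          _ ≤ _ := hsum2
      have huvX : u + v ≤ 2 * X := by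
        calc u + v = 1 * (u + v) := (one_mul _).symm
          _ ≤ g₂ * (u + v) := Nat.mul_le_mul_right _ hg2
          _ ≤ _ := hsum2
      rw [hFs, mem_filter, mem_product, mem_product, mem_Icc, mem_range, mem_range]
      refine ⟨⟨⟨hg2, hg2X⟩, by simp only; omega, by simp only; omega⟩, hu, hv, hcop, hsum2, ?_⟩
      simp only
      -- the radical
      set w : ℝ := ((u + v : ℕ) : ℝ) with hw
      have hw0 : 0 ≤ w := Nat.cast_nonneg _
      have hnle : (n : ℝ) ≤ w ^ 3 := by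
        have : n ≤ (u + v) ^ 3 := by
          rw [hn]
          calc u * v * (u + v) ≤ (u + v) * (u + v) * (u + v) := by gcongr <;> omega
            _ = _ := by ring
        rw [hw]
        exact_mod_cast this
      have hgR : (g : ℝ) ≤ 18 * ((g₁ * g₂ : ℕ) : ℝ) := by exact_mod_cast hgle
      have hcR : (rad n : ℝ) * ((g₁ * g₂ : ℕ) : ℝ) * g₂ ≤ 6 * (condS a b : ℝ) := by
        exact_mod_cast hcond
      set G0 : ℝ := ((g₁ * g₂ : ℕ) : ℝ) with hG0
      have hG0pos : 0 < G0 := by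
        rw [hG0]
        exact_mod_cast Nat.mul_pos hg1 hg2
      -- the height
      have hmax : max (|(a : ℝ)| ^ 3) ((b : ℝ) ^ 2) ≤ ((g : ℝ) * w) ^ 6 := by
        have h3aR : 3 * (a : ℝ) = (g : ℝ) ^ 2 * ((u : ℝ) ^ 2 + u * v + v ^ 2) := by
          exact_mod_cast h3a
        have hDR : 4 * (a : ℝ) ^ 3 - 27 * (b : ℝ) ^ 2 = (g : ℝ) ^ 6 * (n : ℝ) ^ 2 := by
          have : D a b = ((g : ℕ) : ℤ) ^ 6 * ((n : ℕ) : ℤ) ^ 2 := by
            rw [hD, hn]
            push_cast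
            ring
          unfold D at this
          exact_mod_cast this
        have hu0 : (0 : ℝ) ≤ u := Nat.cast_nonneg _
        have hv0 : (0 : ℝ) ≤ v := Nat.cast_nonneg _
        have hwe : w = (u : ℝ) + v := by rw [hw]; push_cast; ring
        have ha0 : (0 : ℝ) ≤ a := by
          have : 0 ≤ (g : ℝ) ^ 2 * ((u : ℝ) ^ 2 + u * v + v ^ 2) := by positivity
          linarith
        have ha1 : (a : ℝ) ≤ ((g : ℝ) * w) ^ 2 := by
          have h5 : (u : ℝ) ^ 2 + u * v + v ^ 2 ≤ w ^ 2 := by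
            rw [hwe]
            nlinarith [mul_nonneg hu0 hv0]
          have h6 : 3 * (a : ℝ) ≤ (g : ℝ) ^ 2 * w ^ 2 := by
            rw [h3aR]
            exact mul_le_mul_of_nonneg_left h5 (by positivity)
          have h7 : ((g : ℝ) * w) ^ 2 = (g : ℝ) ^ 2 * w ^ 2 := by ring
          rw [h7]
          linarith
        have ha3 : (a : ℝ) ^ 3 ≤ ((g : ℝ) * w) ^ 6 := by
          calc (a : ℝ) ^ 3 ≤ (((g : ℝ) * w) ^ 2) ^ 3 := pow_le_pow_left₀ ha0 ha1 3
            _ = _ := by ring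
        refine max_le ?_ ?_
        · rw [abs_of_nonneg ha0]
          exact ha3
        · have h8 : 0 ≤ (g : ℝ) ^ 6 * (n : ℝ) ^ 2 := by positivity
          have h9 : 0 ≤ (a : ℝ) ^ 3 := by positivity
          nlinarith
      have hG01 : 1 ≤ G0 := by
        rw [hG0]
        exact_mod_cast Nat.one_le_iff_ne_zero.mpr (Nat.mul_pos hg1 hg2).ne'
      have hg2R : (g₂ : ℝ) ≤ G0 := by
        rw [hG0]
        have : 1 * g₂ ≤ g₁ * g₂ := Nat.mul_le_mul_right _ hg1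
        exact_mod_cast (by omega : g₂ ≤ g₁ * g₂)
      have hg2pos : (0 : ℝ) < g₂ := by exact_mod_cast hg2
      have hw1R : (1 : ℝ) ≤ w := by
        rw [hw]
        exact_mod_cast hw1
      set S : ℝ := (condS a b : ℝ) with hS
      have hS0 : 0 ≤ S := Nat.cast_nonneg _
      have e3 : ((g : ℝ) * w) ^ 6 ≤ (18 * (G0 * w)) ^ 6 := by
        refine pow_le_pow_left₀ (by positivity) ?_ 6
        calc (g : ℝ) * w ≤ (18 * G0) * w := mul_le_mul_of_nonneg_right hgR hw0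
          _ = _ := by ring
      have e6 : S ^ κ ≤ K * (18 * (G0 * w)) ^ 6 :=
        hbig.le.trans (mul_le_mul_of_nonneg_left (hmax.trans e3) hK.le)
      have hGw : 0 < G0 * w := mul_pos hG0pos (by linarith)
      have e7 : S ≤ K ^ (1 / κ) * (18 * (G0 * w)) ^ lam := by
        have h1 : (S ^ κ) ^ (1 / κ) ≤ (K * (18 * (G0 * w)) ^ 6) ^ (1 / κ) :=
          Real.rpow_le_rpow (Real.rpow_nonneg hS0 _) e6 (by positivity)
        rw [← Real.rpow_mul hS0, mul_one_div_cancel hκ0.ne', Real.rpow_one,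
          Real.mul_rpow hK.le (by positivity), ← Real.rpow_natCast, ← Real.rpow_mul (by positivity)]
          at h1
        have e : ((6 : ℕ) : ℝ) * (1 / κ) = lam := by
          rw [hlam]
          push_cast
          ring
        rw [e] at h1
        exact h1
      have e8 : (18 * (G0 * w)) ^ lam ≤ 5832 * (G0 ^ lam * w ^ lam) := by
        rw [Real.mul_rpow (by norm_num) hGw.le, Real.mul_rpow hG0pos.le (by linarith)]
        have : (18 : ℝ) ^ lam ≤ 5832 := by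
          calc (18 : ℝ) ^ lam ≤ 18 ^ (3 : ℝ) :=
                Real.rpow_le_rpow_of_exponent_le (by norm_num) hl3
            _ = 5832 := by
                rw [show (3 : ℝ) = ((3 : ℕ) : ℝ) by norm_num, Real.rpow_natCast]
                norm_num
        exact mul_le_mul_of_nonneg_right this (by positivity)
      have e9 : (rad n : ℝ) * g₂ * G0 ≤ 34992 * K ^ (1 / κ) * w ^ lam * G0 ^ lam := by
        calc (rad n : ℝ) * g₂ * G0 = (rad n : ℝ) * G0 * g₂ := by ring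
          _ ≤ 6 * S := hcR
          _ ≤ 6 * (K ^ (1 / κ) * (18 * (G0 * w)) ^ lam) :=
              mul_le_mul_of_nonneg_left e7 (by norm_num)
          _ ≤ 6 * (K ^ (1 / κ) * (5832 * (G0 ^ lam * w ^ lam))) := by
              apply mul_le_mul_of_nonneg_left _ (by norm_num)
              exact mul_le_mul_of_nonneg_left e8 (by positivity)
          _ = _ := by ring
      have hrad0 : (0 : ℝ) ≤ rad n := Nat.cast_nonneg _
      refine ⟨fun hl1 => ?_, fun hl1 => ?_⟩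
      · have e10 : (rad n : ℝ) * (g₂ : ℝ) ^ (2 - lam) * G0 ^ lam ≤
            34992 * K ^ (1 / κ) * w ^ lam * G0 ^ lam := by
          refine le_trans ?_ e9
          have q1 : (g₂ : ℝ) ^ (2 - lam) = (g₂ : ℝ) * (g₂ : ℝ) ^ (1 - lam) := by
            nth_rewrite 2 [← Real.rpow_one (g₂ : ℝ)]
            rw [← Real.rpow_add hg2pos]
            congr 1
            ring
          have q2 : (g₂ : ℝ) ^ (1 - lam) ≤ G0 ^ (1 - lam) :=
            Real.rpow_le_rpow hg2pos.le hg2R (by linarith)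
          have q3 : G0 ^ (1 - lam) * G0 ^ lam = G0 := by
            rw [← Real.rpow_add hG0pos]
            simp
          calc (rad n : ℝ) * (g₂ : ℝ) ^ (2 - lam) * G0 ^ lam
              = (rad n : ℝ) * g₂ * ((g₂ : ℝ) ^ (1 - lam) * G0 ^ lam) := by rw [q1]; ring
            _ ≤ (rad n : ℝ) * g₂ * (G0 ^ (1 - lam) * G0 ^ lam) := by
                apply mul_le_mul_of_nonneg_left _ (by positivity)
                exact mul_le_mul_of_nonneg_right q2 (by positivity)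
            _ = (rad n : ℝ) * g₂ * G0 := by rw [q3]
        have e11 : (rad n : ℝ) * (g₂ : ℝ) ^ (2 - lam) ≤ 34992 * K ^ (1 / κ) * w ^ lam :=
          le_of_mul_le_mul_right e10 (by positivity)
        exact e11.trans (mul_le_mul_of_nonneg_right (by linarith) (by positivity))
      · have hwpos : 0 < w := by linarith
        have q4 : G0 ^ lam = G0 ^ (lam - 1) * G0 := by
          nth_rewrite 3 [← Real.rpow_one G0]
          rw [← Real.rpow_add hG0pos]
          congr 1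
          ring
        have q5 : w ^ lam = w ^ (lam - 1) * w := by
          nth_rewrite 3 [← Real.rpow_one w]
          rw [← Real.rpow_add hwpos]
          congr 1
          ring
        have e10 : (rad n : ℝ) * g₂ * G0 ≤
            34992 * K ^ (1 / κ) * (w * (G0 * w) ^ (lam - 1)) * G0 := by
          refine e9.trans (le_of_eq ?_)
          rw [q4, q5, Real.mul_rpow hG0pos.le hwpos.le]
          ring
        have e11 : (rad n : ℝ) * g₂ ≤ 34992 * K ^ (1 / κ) * (w * (G0 * w) ^ (lam - 1)) :=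
          le_of_mul_le_mul_right e10 hG0pos
        have hGwX : G0 * w ≤ 2 * (X : ℝ) := by
          have h6 : g₁ * g₂ * (u + v) ≤ 2 * X := (Nat.mul_le_mul_right _ hG0le).trans hsum
          rw [hG0, hw]
          exact_mod_cast h6
        have q6 : (G0 * w) ^ (lam - 1) ≤ 4 * (X : ℝ) ^ (lam - 1) := by
          calc (G0 * w) ^ (lam - 1) ≤ (2 * (X : ℝ)) ^ (lam - 1) :=
                Real.rpow_le_rpow hGw.le hGwX (by linarith)
            _ = 2 ^ (lam - 1) * (X : ℝ) ^ (lam - 1) := Real.mul_rpow (by norm_num) hX0.le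
            _ ≤ 4 * (X : ℝ) ^ (lam - 1) := by
                apply mul_le_mul_of_nonneg_right _ (by positivity)
                calc (2 : ℝ) ^ (lam - 1) ≤ 2 ^ (2 : ℝ) :=
                      Real.rpow_le_rpow_of_exponent_le (by norm_num) (by linarith)
                  _ = 4 := by
                      rw [show (2 : ℝ) = ((2 : ℕ) : ℝ) by norm_num, Real.rpow_natCast]
                      norm_num
        calc (rad n : ℝ) * g₂ ≤ 34992 * K ^ (1 / κ) * (w * (G0 * w) ^ (lam - 1)) := e11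
          _ ≤ 34992 * K ^ (1 / κ) * (w * (4 * (X : ℝ) ^ (lam - 1))) := by gcongr
          _ = 139968 * K ^ (1 / κ) * w * (X : ℝ) ^ (lam - 1) := by ring
          _ ≤ B * w * (X : ℝ) ^ (lam - 1) := by gcongr
    · unfold mdl
      simp only
      have e1 : ((g : ℕ) : ℤ) ^ 2 * ((u : ℤ) ^ 2 + u * v + (v : ℤ) ^ 2) / 3 = a := by
        rw [← h3a]
        exact Int.mul_ediv_cancel_left _ (by norm_num)
      have e2 : ((g : ℕ) : ℤ) ^ 6 * ((u : ℤ) * v * (u + v)) ^ 2 = D a b := hD.symm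
      rw [← hg, e1, e2]
      refine Prod.ext rfl ?_
      simp only
      have e3 : (4 * a ^ 3 - D a b) / 27 = |b| ^ 2 := by
        have : 4 * a ^ 3 - D a b = 27 * b ^ 2 := by unfold D; ring
        rw [this, sq_abs]
        exact Int.mul_ediv_cancel_left _ (by norm_num)
      have e4 : (|b| ^ 2).toNat = (b.natAbs) ^ 2 := by
        rw [Int.abs_eq_natAbs, ← Nat.cast_pow, Int.toNat_natCast]
      rw [e3, e4, Nat.sqrt_eq', ← Int.abs_eq_natAbs]
      exact hsb.symm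
  have hfin : (ExcM κ K X).Finite := Set.Finite.subset (Finset.finite_toSet _) hsub
  refine ⟨hfin, ?_⟩
  have c1 : (ExcM κ K X).ncard ≤ ((A ×ˢ G).image mdl).card := by
    rw [← Set.ncard_coe_finset]
    exact Set.ncard_le_ncard hsub (Finset.finite_toSet _)
  have c2 : ((A ×ˢ G).image mdl).card ≤ 12 * G.card :=
    card_image_le.trans (by rw [card_product]; exact Nat.mul_le_mul_right _ hAcard)
  have c3 : ((ExcM κ K X).ncard : ℝ) ≤ 12 * G.card := by exact_mod_cast c1.trans c2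
  -- the divisors
  have c4 : (G.card : ℝ) ≤ Fs.card * (C3 * 2 ^ (ε / 3) * (X : ℝ) ^ (ε / 3)) := by
    have e1 : G.card ≤ ∑ t ∈ Fs, (Nat.divisors (t.2.1 * t.2.2 * (t.2.1 + t.2.2))).card := by
      rw [hG]
      exact card_biUnion_le.trans (sum_le_sum (fun t _ => card_image_le))
    have e2 : ((∑ t ∈ Fs, (Nat.divisors (t.2.1 * t.2.2 * (t.2.1 + t.2.2))).card : ℕ) : ℝ) ≤
        ∑ t ∈ Fs, C3 * 2 ^ (ε / 3) * (X : ℝ) ^ (ε / 3) := by
      push_cast
      refine sum_le_sum (fun t ht => ?_)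
      rw [hFs, mem_filter, mem_product, mem_product, mem_Icc] at ht
      obtain ⟨⟨⟨q0, q0'⟩, -⟩, q1, q2, q3, q4, q5, q6⟩ := ht
      have hwX : t.2.1 + t.2.2 ≤ 2 * X := by
        calc t.2.1 + t.2.2 = 1 * (t.2.1 + t.2.2) := (one_mul _).symm
          _ ≤ t.1 * (t.2.1 + t.2.2) := Nat.mul_le_mul_right _ q0
          _ ≤ _ := q4
      set n : ℕ := t.2.1 * t.2.2 * (t.2.1 + t.2.2) with hn
      have hn1 : 1 ≤ n := by
        rw [hn]
        have : 0 < t.2.1 * t.2.2 * (t.2.1 + t.2.2) := by positivity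
        omega
      have hnle : n ≤ (2 * X) ^ 3 := by
        rw [hn]
        calc t.2.1 * t.2.2 * (t.2.1 + t.2.2) ≤ (2 * X) * (2 * X) * (2 * X) := by
              gcongr <;> omega
          _ = _ := by ring
      have hnR : (n : ℝ) ≤ (2 * (X : ℝ)) ^ 3 := by exact_mod_cast hnle
      calc ((Nat.divisors n).card : ℝ) ≤ C3 * (n : ℝ) ^ (ε / 9) := h3 n hn1
        _ ≤ C3 * ((2 * (X : ℝ)) ^ 3) ^ (ε / 9) := by
            have := Real.rpow_le_rpow (Nat.cast_nonneg n) hnR (by positivity : (0 : ℝ) ≤ ε / 9)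
            exact mul_le_mul_of_nonneg_left this hC3.le
        _ = C3 * 2 ^ (ε / 3) * (X : ℝ) ^ (ε / 3) := by
            rw [← Real.rpow_natCast, ← Real.rpow_mul (by positivity)]
            have : ((3 : ℕ) : ℝ) * (ε / 9) = ε / 3 := by push_cast; ring
            rw [this, Real.mul_rpow (by norm_num) hX0.le]
            ring
    calc (G.card : ℝ) ≤ ((∑ t ∈ Fs, (Nat.divisors (t.2.1 * t.2.2 * (t.2.1 + t.2.2))).card : ℕ) : ℝ) := by
          exact_mod_cast e1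
      _ ≤ _ := e2
      _ = _ := by rw [sum_const, nsmul_eq_mul]
  -- the fibres over g₂
  have c5 : (Fs.card : ℝ) ≤ C1 * (X : ℝ) ^ (F lam + ε / 3) * (C2 * 2 ^ (ε / 3) * (X : ℝ) ^ (ε / 3)) := by
    have e1 : Fs.card = ∑ m ∈ Icc 1 (2 * X), (Fs.filter (fun t => t.1 = m)).card :=
      card_eq_sum_card_fiberwise (fun t ht => by
        rw [mem_coe, hFs, mem_filter, mem_product] at ht
        exact ht.1.1)
    have e2 : ∀ m ∈ Icc 1 (2 * X), ((Fs.filter (fun t => t.1 = m)).card : ℝ) ≤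
        C1 * (X : ℝ) ^ (F lam + ε / 3) * (1 / rad m) := by
      intro m hm
      rw [mem_Icc] at hm
      have hinj : Set.InjOn (fun t : ℕ × (ℕ × ℕ) => t.2) (Fs.filter (fun t => t.1 = m) : Finset _) := by
        rintro ⟨x, y⟩ hx ⟨x', y'⟩ hx' he
        rw [mem_coe, mem_filter] at hx hx'
        simp only at he hx hx'
        rw [Prod.mk.injEq]
        exact ⟨hx.2.trans hx'.2.symm, he⟩
      have := h1 X hX m hm.1 ((Fs.filter (fun t => t.1 = m)).image (fun t => t.2)) (fun t ht => by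
        obtain ⟨x, hx, rfl⟩ := mem_image.mp ht
        rw [mem_filter] at hx
        obtain ⟨hx1, hx2⟩ := hx
        rw [hFs, mem_filter] at hx1
        have := hx1.2
        simp only [cond] at this
        rw [hx2] at this
        exact this)
      rw [card_image_of_injOn hinj] at this
      refine this.trans ?_
      have hm0 : (0 : ℝ) < m := by exact_mod_cast hm.1
      have hr0 : (0 : ℝ) < rad m := by exact_mod_cast rad_pos m
      have hrm : (rad m : ℝ) ≤ m := by exact_mod_cast rad_le (by omega : m ≠ 0)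
      rw [div_eq_mul_one_div]
      have : (1 : ℝ) / m ≤ 1 / rad m := one_div_le_one_div_of_le hr0 hrm
      exact mul_le_mul_of_nonneg_left this (by positivity)
    have e3 := h2 (2 * X) (by omega)
    have e4 : (((2 * X : ℕ) : ℝ)) ^ (ε / 3) = 2 ^ (ε / 3) * (X : ℝ) ^ (ε / 3) := by
      push_cast
      exact Real.mul_rpow (by norm_num) hX0.le
    rw [e4] at e3
    calc (Fs.card : ℝ) = ∑ m ∈ Icc 1 (2 * X), ((Fs.filter (fun t => t.1 = m)).card : ℝ) := by
          rw [e1]; push_cast; rfl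
      _ ≤ ∑ m ∈ Icc 1 (2 * X), C1 * (X : ℝ) ^ (F lam + ε / 3) * (1 / rad m) := sum_le_sum e2
      _ = C1 * (X : ℝ) ^ (F lam + ε / 3) * ∑ m ∈ Icc 1 (2 * X), (1 : ℝ) / rad m := by
          rw [mul_sum]
      _ ≤ C1 * (X : ℝ) ^ (F lam + ε / 3) * (C2 * (2 ^ (ε / 3) * (X : ℝ) ^ (ε / 3))) :=
          mul_le_mul_of_nonneg_left e3 (by positivity)
      _ = _ := by ring
  have hexp : (X : ℝ) ^ (F lam + ε / 3) * (X : ℝ) ^ (ε / 3) * (X : ℝ) ^ (ε / 3) =
      (X : ℝ) ^ (F lam + ε) := by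
    rw [← Real.rpow_add hX0, ← Real.rpow_add hX0]
    congr 1
    ring
  have c6 : (G.card : ℝ) ≤ C1 * (X : ℝ) ^ (F lam + ε / 3) * (C2 * 2 ^ (ε / 3) * (X : ℝ) ^ (ε / 3)) *
      (C3 * 2 ^ (ε / 3) * (X : ℝ) ^ (ε / 3)) :=
    c4.trans (mul_le_mul_of_nonneg_right c5 (by positivity))
  calc ((ExcM κ K X).ncard : ℝ) ≤ 12 * G.card := c3
    _ ≤ 12 * (C1 * (X : ℝ) ^ (F lam + ε / 3) * (C2 * 2 ^ (ε / 3) * (X : ℝ) ^ (ε / 3)) *
      (C3 * 2 ^ (ε / 3) * (X : ℝ) ^ (ε / 3))) := by linarith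
    _ = 12 * (C1 * (C2 * 2 ^ (ε / 3)) * (C3 * 2 ^ (ε / 3))) *
        ((X : ℝ) ^ (F lam + ε / 3) * (X : ℝ) ^ (ε / 3) * (X : ℝ) ^ (ε / 3)) := by ring
    _ = _ := by rw [hexp]

theorem exc_sub2 (κ K : ℝ) (hκ : 2 ≤ κ) (hK : 0 < K) (X : ℕ) :
    Exc κ K X ⊆ back '' ((((range 7 ×ˢ range 7 : Finset (ℕ × ℕ)) : Set (ℕ × ℕ))) ×ˢ
      ExcM κ (746496 / K) (6 * X)) := by
  rintro q ⟨W, hW, hF, rfl, h4, h6, hbig⟩
  obtain ⟨a, b, r, s, hmin, hfull, hs0, hsr, hr6, e4, e6, e12, hrs6⟩ := ints W hW hF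
  have hr6' : r ≤ 6 := Nat.le_of_dvd (by norm_num) hr6
  have hr0 : 0 < r := by omega
  have hsZ : (1 : ℤ) ≤ s := by exact_mod_cast hs0
  have hrZ : (0 : ℤ) < r := by exact_mod_cast hr0
  have hsrZ : (s : ℤ) ≤ r := by exact_mod_cast hsr
  have hrsZ : (r : ℤ) ≤ 6 * s := by exact_mod_cast hrs6
  refine ⟨((r, s), (a, b)), ⟨?_, hmin, hfull, ?_, ?_, ?_⟩, ?_⟩
  · rw [Finset.mem_coe, mem_product, mem_range, mem_range]
    simp only
    omega
  · -- `|a| ≤ (6X)²`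
    have h1 : 48 * |a| * (s : ℤ) ^ 4 = (r : ℤ) ^ 4 * |W.c₄| := by
      have := congrArg abs e4
      rw [abs_mul, abs_mul, abs_mul, abs_of_pos (by norm_num : (0 : ℤ) < 48),
        abs_of_nonneg (by positivity : (0 : ℤ) ≤ (s : ℤ) ^ 4),
        abs_of_nonneg (by positivity : (0 : ℤ) ≤ (r : ℤ) ^ 4)] at this
      exact this
    have h2 : (r : ℤ) ^ 4 ≤ 1296 * (s : ℤ) ^ 4 := by
      calc (r : ℤ) ^ 4 ≤ (6 * s) ^ 4 := pow_le_pow_left₀ hrZ.le hrsZ 4
        _ = _ := by ring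
    have h3 : |W.c₄| ≤ (X : ℤ) ^ 2 := by
      have : |W.c₄| ^ 3 ≤ ((X : ℤ) ^ 2) ^ 3 := by
        calc |W.c₄| ^ 3 ≤ (X : ℤ) ^ 6 := h4
          _ = _ := by ring
      exact le_of_pow_le_pow_left₀ (by norm_num) (by positivity) this
    have hs4 : (0 : ℤ) < (s : ℤ) ^ 4 := by positivity
    have h5 : 48 * |a| * (s : ℤ) ^ 4 ≤ (1296 * (X : ℤ) ^ 2) * (s : ℤ) ^ 4 := by
      rw [h1]
      calc (r : ℤ) ^ 4 * |W.c₄| ≤ (1296 * (s : ℤ) ^ 4) * (X : ℤ) ^ 2 :=
            mul_le_mul h2 h3 (abs_nonneg _) (by positivity)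
        _ = _ := by ring
    have h6 : 48 * |a| ≤ 1296 * (X : ℤ) ^ 2 := le_of_mul_le_mul_right h5 hs4
    have h7 : (((6 * X : ℕ) : ℤ)) ^ 2 = 36 * (X : ℤ) ^ 2 := by push_cast; ring
    show |a| ≤ (((6 * X : ℕ) : ℤ)) ^ 2
    rw [h7]
    have : 0 ≤ (X : ℤ) ^ 2 := by positivity
    linarith
  · -- `|b| ≤ (6X)³`
    have h1 : 864 * |b| * (s : ℤ) ^ 6 = (r : ℤ) ^ 6 * |W.c₆| := by
      have := congrArg abs e6
      rw [abs_mul, abs_mul, abs_mul, abs_of_pos (by norm_num : (0 : ℤ) < 864),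
        abs_of_nonneg (by positivity : (0 : ℤ) ≤ (s : ℤ) ^ 6),
        abs_of_nonneg (by positivity : (0 : ℤ) ≤ (r : ℤ) ^ 6)] at this
      exact this
    have h2 : (r : ℤ) ^ 6 ≤ 46656 * (s : ℤ) ^ 6 := by
      calc (r : ℤ) ^ 6 ≤ (6 * s) ^ 6 := pow_le_pow_left₀ hrZ.le hrsZ 6
        _ = _ := by ring
    have h3 : |W.c₆| ≤ (X : ℤ) ^ 3 := by
      have : |W.c₆| ^ 2 ≤ ((X : ℤ) ^ 3) ^ 2 := by
        calc |W.c₆| ^ 2 = W.c₆ ^ 2 := sq_abs _
          _ ≤ (X : ℤ) ^ 6 := h6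
          _ = _ := by ring
      exact le_of_pow_le_pow_left₀ (by norm_num) (by positivity) this
    have hs6 : (0 : ℤ) < (s : ℤ) ^ 6 := by positivity
    have h5 : 864 * |b| * (s : ℤ) ^ 6 ≤ (46656 * (X : ℤ) ^ 3) * (s : ℤ) ^ 6 := by
      rw [h1]
      calc (r : ℤ) ^ 6 * |W.c₆| ≤ (46656 * (s : ℤ) ^ 6) * (X : ℤ) ^ 3 :=
            mul_le_mul h2 h3 (abs_nonneg _) (by positivity)
        _ = _ := by ring
    have h6 : 864 * |b| ≤ 46656 * (X : ℤ) ^ 3 := le_of_mul_le_mul_right h5 hs6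
    have h7 : (((6 * X : ℕ) : ℤ)) ^ 3 = 216 * (X : ℤ) ^ 3 := by push_cast; ring
    show |b| ≤ (((6 * X : ℕ) : ℤ)) ^ 3
    rw [h7]
    have : 0 ≤ (X : ℤ) ^ 3 := by positivity
    linarith
  · -- the inequality
    have hcl : (condS a b : ℝ) ≤ (condW W : ℝ) := by
      exact_mod_cast cond_le W a b r s hr6 e4 e12 hW.1
    have hc0 : (0 : ℝ) ≤ (condS a b : ℝ) := Nat.cast_nonneg _
    have h1 : (condS a b : ℝ) ^ κ ≤ (condW W : ℝ) ^ κ :=
      Real.rpow_le_rpow hc0 hcl (by linarith)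
    have hrR : (0 : ℝ) < r := by exact_mod_cast hr0
    have hsR : (0 : ℝ) ≤ s := Nat.cast_nonneg _
    have hsrR : (s : ℝ) ≤ r := by exact_mod_cast hsr
    have f4 : |(W.c₄ : ℝ)| ≤ 48 * |(a : ℝ)| := by
      have e : 48 * (a : ℝ) * (s : ℝ) ^ 4 = (r : ℝ) ^ 4 * (W.c₄ : ℝ) := by exact_mod_cast e4
      have h2 := congrArg abs e
      rw [abs_mul, abs_mul, abs_mul, abs_of_pos (by norm_num : (0 : ℝ) < 48),
        abs_of_nonneg (by positivity : (0 : ℝ) ≤ (s : ℝ) ^ 4),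
        abs_of_nonneg (by positivity : (0 : ℝ) ≤ (r : ℝ) ^ 4)] at h2
      have h3 : (s : ℝ) ^ 4 ≤ (r : ℝ) ^ 4 := pow_le_pow_left₀ hsR hsrR 4
      have h5 : (r : ℝ) ^ 4 * |(W.c₄ : ℝ)| ≤ (r : ℝ) ^ 4 * (48 * |(a : ℝ)|) := by
        rw [← h2]
        calc 48 * |(a : ℝ)| * (s : ℝ) ^ 4 ≤ 48 * |(a : ℝ)| * (r : ℝ) ^ 4 :=
              mul_le_mul_of_nonneg_left h3 (by positivity)
          _ = _ := by ring
      exact le_of_mul_le_mul_left h5 (by positivity)
    have f6 : |(W.c₆ : ℝ)| ≤ 864 * |(b : ℝ)| := by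
      have e : 864 * (b : ℝ) * (s : ℝ) ^ 6 = (r : ℝ) ^ 6 * (W.c₆ : ℝ) := by exact_mod_cast e6
      have h2 := congrArg abs e
      rw [abs_mul, abs_mul, abs_mul, abs_of_pos (by norm_num : (0 : ℝ) < 864),
        abs_of_nonneg (by positivity : (0 : ℝ) ≤ (s : ℝ) ^ 6),
        abs_of_nonneg (by positivity : (0 : ℝ) ≤ (r : ℝ) ^ 6)] at h2
      have h3 : (s : ℝ) ^ 6 ≤ (r : ℝ) ^ 6 := pow_le_pow_left₀ hsR hsrR 6
      have h5 : (r : ℝ) ^ 6 * |(W.c₆ : ℝ)| ≤ (r : ℝ) ^ 6 * (864 * |(b : ℝ)|) := by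
        rw [← h2]
        calc 864 * |(b : ℝ)| * (s : ℝ) ^ 6 ≤ 864 * |(b : ℝ)| * (r : ℝ) ^ 6 :=
              mul_le_mul_of_nonneg_left h3 (by positivity)
          _ = _ := by ring
      exact le_of_mul_le_mul_left h5 (by positivity)
    set M : ℝ := max (|(a : ℝ)| ^ 3) ((b : ℝ) ^ 2) with hM
    have hM0 : 0 ≤ M := le_trans (by positivity) (le_max_left _ _)
    have g : max (|(W.c₄ : ℝ)| ^ 3) ((W.c₆ : ℝ) ^ 2) ≤ 746496 * M := by
      refine max_le ?_ ?_
      · calc |(W.c₄ : ℝ)| ^ 3 ≤ (48 * |(a : ℝ)|) ^ 3 := pow_le_pow_left₀ (abs_nonneg _) f4 3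
          _ = 110592 * |(a : ℝ)| ^ 3 := by ring
          _ ≤ 110592 * M := mul_le_mul_of_nonneg_left (le_max_left _ _) (by norm_num)
          _ ≤ _ := by linarith
      · calc (W.c₆ : ℝ) ^ 2 = |(W.c₆ : ℝ)| ^ 2 := (sq_abs _).symm
          _ ≤ (864 * |(b : ℝ)|) ^ 2 := pow_le_pow_left₀ (abs_nonneg _) f6 2
          _ = 746496 * (b : ℝ) ^ 2 := by rw [mul_pow, sq_abs]; norm_num
          _ ≤ 746496 * M := mul_le_mul_of_nonneg_left (le_max_right _ _) (by norm_num)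
    have h2 : K * (condS a b : ℝ) ^ κ < 746496 * M :=
      lt_of_le_of_lt (mul_le_mul_of_nonneg_left h1 hK.le) (lt_of_lt_of_le hbig g)
    show (condS a b : ℝ) ^ κ < 746496 / K * M
    rw [div_mul_eq_mul_div, lt_div_iff₀ hK]
    linarith
  · unfold back
    simp only
    rw [e4, e6, Int.mul_ediv_cancel_left _ (by positivity),
      Int.mul_ediv_cancel_left _ (by positivity)]

/-- minimal Weierstrass equations -/
theorem exc_count2 (F : ℝ → ℝ) (hF : FOK F) (hP : StmtPairs F) (κ K ε : ℝ) (hκ : 2 ≤ κ)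
    (hK : 0 < K) (hε : 0 < ε) :
    ∃ C : ℝ, 0 < C ∧ ∀ X : ℕ, 1 ≤ X →
      (Exc κ K X).Finite ∧
      ((Exc κ K X).ncard : ℝ) ≤ C * (X : ℝ) ^ (F (6 / κ) + ε) := by
  obtain ⟨C, hC, h⟩ := twistM_of F hF hP κ (746496 / K) ε hκ (by positivity) hε
  have hθ : 0 ≤ F (6 / κ) + ε := by
    have := hF.nonneg (6 / κ) (by positivity)
    linarith
  refine ⟨49 * (C * 6 ^ (F (6 / κ) + ε)), by positivity, fun X hX => ?_⟩
  obtain ⟨hfin, hcard⟩ := h (6 * X) (by omega)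
  have hsub := exc_sub2 κ K hκ hK X
  have hfin1 : ((((range 7 ×ˢ range 7 : Finset (ℕ × ℕ)) : Set (ℕ × ℕ))) ×ˢ
      ExcM κ (746496 / K) (6 * X)).Finite := (Finset.finite_toSet _).prod hfin
  have hfin2 := hfin1.image back
  refine ⟨hfin2.subset hsub, ?_⟩
  have c1 : (Exc κ K X).ncard ≤ 49 * (ExcM κ (746496 / K) (6 * X)).ncard := by
    calc (Exc κ K X).ncard ≤ _ := Set.ncard_le_ncard hsub hfin2
      _ ≤ _ := Set.ncard_image_le hfin1
      _ = _ := by
          rw [Set.ncard_prod, Set.ncard_coe_finset, card_product, card_range]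
  calc ((Exc κ K X).ncard : ℝ) ≤ 49 * ((ExcM κ (746496 / K) (6 * X)).ncard : ℝ) := by
        exact_mod_cast c1
    _ ≤ 49 * (C * ((6 * X : ℕ) : ℝ) ^ (F (6 / κ) + ε)) := by linarith
    _ = 49 * (C * 6 ^ (F (6 / κ) + ε)) * (X : ℝ) ^ (F (6 / κ) + ε) := by
        push_cast
        rw [Real.mul_rpow (by norm_num) (Nat.cast_nonneg _)]
        ring

end Pool.Agent.W221.Sz
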